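import Pool.Agent.Lib.MP_9e3d42_al.AD.TwE

/-! Check: codimension at most two, equal characteristic or unramified, satisfies the hypothesis
on the primes of height one. Not a hand-in. -/

open IsLocalRing RingTheory.Sequence

universe u

namespace Pool.Agent.Lib.MP_9e3d42_al.AD

lemma span_two {T : Type*} [CommRing T] {s : Finset T} (h : s.card ≤ 2) :
    ∃ y z : T, Ideal.span (s : Set T) = Ideal.span {y, z} := by
  classical
  obtain h | h | h : s.card = 0 ∨ s.card = 1 ∨ s.card = 2 := by omega
  · exact ⟨0, 0, by simp [Finset.card_eq_zero.1 h]⟩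
  · obtain ⟨y, rfl⟩ := Finset.card_eq_one.1 h
    exact ⟨y, y, by simp⟩
  · obtain ⟨y, z, -, rfl⟩ := Finset.card_eq_two.1 h
    exact ⟨y, z, by simp⟩

theorem emb3_two {S : Type u} [CommRing S] [IsRegularLocalRing S] {fs : List S}
    (hfs : IsRegular S fs) (hl : fs.length ≤ 2)
    (hc : (ringChar (ResidueField S) : S ⧸ Ideal.ofList fs) = 0 ∨
      (ringChar (ResidueField S) : S) ∉ maximalIdeal S ^ 2) : Emb3 (S ⧸ Ideal.ofList fs) := by
  intro P _ hP
  let Q := P.comap (Ideal.Quotient.mk (Ideal.ofList fs))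
  let T := Localization.AtPrime Q
  have : IsRegularLocalRing T := serre Q
  have := reg_domain (R := T)
  obtain ⟨ε, h1⟩ := loc_quot (T := T) _ P (Ideal.map_ofList (algebraMap S T) fs)
  have h2 := hfs.1.isRegular_of_isLocalization_of_mem T Q fun r hr => by
    rw [Ideal.mem_comap, Ideal.Quotient.eq_zero_iff_mem.2
      (show r ∈ Ideal.ofList fs from Ideal.subset_span hr)]
    exact zero_mem _
  have h3 := ringKrullDim_add_length_eq_ringKrullDim_of_isRegular _ h2
  rw [← ringKrullDim_eq_of_ringEquiv ε, IsLocalization.AtPrime.ringKrullDim_eq_height P, hP,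
    List.length_map] at h3
  let θ := ε.symm.toRingHom.comp (Ideal.Quotient.mk _)
  have hθ : Function.Surjective θ := ε.symm.surjective.comp Ideal.Quotient.mk_surjective
  suffices ∃ x, (∃ d ≤ 2, RS (maximalIdeal T) (Ideal.span {x}) d) ∧
      ((ringChar P.ResidueField : Localization.AtPrime P) = 0 ∨ x = ringChar P.ResidueField) by
    obtain ⟨x, ⟨d, h4, h5⟩, h6⟩ := this
    obtain ⟨s, h7, h8⟩ := h5.span
    obtain ⟨y, z, h9⟩ := span_two (h7.trans h4)
    refine ⟨θ x, θ y, θ z, ?_, h6.imp_right fun k => by rw [k, map_natCast]⟩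
    rw [← map_maximalIdeal_of_surjective θ hθ, ← h8, h9, ← Ideal.span_insert, Ideal.map_span]
    simp only [Set.image_insert_eq, Set.image_singleton]
  by_cases k : (ringChar P.ResidueField : Localization.AtPrime P) = 0
  · obtain ⟨d, hd⟩ := reg_rs (R := T)
    rw [hd.dim_bot] at h3
    norm_cast at h3
    obtain rfl : d = fs.length + 1 := by omega
    generalize maximalIdeal T = m at hd
    obtain _ | ⟨_, _, x, -, -, h⟩ := hd
    exact ⟨x, ⟨_, hl, bot_sup_eq (Ideal.span {x}) ▸ h⟩, .inl k⟩
  obtain hq | hq := CharP.char_is_prime_or_zero P.ResidueField (ringChar _)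
  swap
  · exact (k (by rw [hq, Nat.cast_zero])).elim
  have k1 : (ringChar P.ResidueField : S) ∈ Q := by
    rw [Ideal.mem_comap, ← Ideal.algebraMap_residueField_eq_zero, map_natCast, map_natCast,
      ringChar.Nat.cast_ringChar]
  rw [CharP.ringChar_of_prime_eq_zero hq ((map_natCast (residue S) _).symm.trans
    ((residue_eq_zero_iff _).2 (le_maximalIdeal Ideal.IsPrime.ne_top' k1)))] at hc
  have x2 := unram (T := T) Q k1 (hc.resolve_left fun h => k (by
    rw [← map_natCast (algebraMap (S ⧸ Ideal.ofList fs) _), h, map_zero]))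
  have x1 := (IsLocalization.AtPrime.to_map_mem_maximal_iff T Q _).2 k1
  rw [map_natCast] at x1 x2
  have := reg_quot x1 x2
  obtain ⟨d, h4⟩ := reg_rs (R := T ⧸ Ideal.span {(ringChar P.ResidueField : T)})
  have h5 := h4.comap Ideal.Quotient.mk_surjective
  have := IsLocalHom.of_surjective _
    (Ideal.Quotient.mk_surjective (I := Ideal.span {(ringChar P.ResidueField : T)}))
  rw [maximalIdeal_comap, ← RingHom.ker_eq_comap_bot, Ideal.mk_ker] at h5
  refine ⟨_, ⟨d, ?_, h5⟩, .inr rfl⟩
  rw [← ringKrullDim_quotient_span_singleton_succ_eq_ringKrullDim_of_mem_nonZeroDivisors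
    (mem_nonZeroDivisors_of_ne_zero fun e => x2 (by rw [e]; exact zero_mem _)) x1, h4.dim_bot] at h3
  norm_cast at h3
  omega

end Pool.Agent.Lib.MP_9e3d42_al.AD
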