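import Pool.Agent.Lib.MP_9e3d42_al.CT.Main

open scoped TensorProduct

/-- The Huneke-Wiegand condition for all finitely generated modules over Noetherian local domains
whose completion is `O[[Y,Z]]/(f,g)`, where `O` is a complete discrete valuation ring with
uniformizer `ϖ` and `f, g, ϖ` is a regular sequence: one-dimensional complete intersections of
codimension at most two. -/
theorem Pool.Agent.Lib.MP_9e3d42_al.CodimTwoVar.result
    (R : Type*) [CommRing R] [IsDomain R] [IsLocalRing R] [IsNoetherianRing R]
    (O : Type*) [CommRing O] [IsDomain O] [IsDiscreteValuationRing O]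
    [IsAdicComplete (IsLocalRing.maximalIdeal O) O] (ϖ : O) (hϖ : Irreducible ϖ)
    (f g : MvPowerSeries (Fin 2) O)
    (hfg : RingTheory.Sequence.IsRegular (MvPowerSeries (Fin 2) O) [f, g, MvPowerSeries.C ϖ])
    (hR : Nonempty (AdicCompletion (IsLocalRing.maximalIdeal R) R ≃+*
      (MvPowerSeries (Fin 2) O ⧸ Ideal.span {f, g})))
    (M : Type*) [AddCommGroup M] [Module R M] [Module.Finite R M]
    (hM : Submodule.torsion R M = ⊥)
    (hT : Submodule.torsion R (M ⊗[R] Module.Dual R M) = ⊥) :
    Module.Free R M := by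
  obtain ⟨e⟩ := hR
  have := Submodule.isTorsionFree_iff_torsion_eq_bot.mpr hM
  have := Submodule.isTorsionFree_iff_torsion_eq_bot.mpr hT
  exact Pool.Agent.Lib.MP_9e3d42_al.CT.free_of_compl hϖ hfg e M
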